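import Mathlib

set_option autoImplicit false

namespace Pool.Agent.H0.Rbm

abbrev Cube := Fin 4 → Bool

/-- the vertex `v` with coordinates `i`, `j` replaced -/
def corner (v : Cube) (i j : Fin 4) (a b : Bool) : Cube :=
  fun k => if k = i then a else if k = j then b else v k

def V (n : ℕ) : Cube := fun j => n.testBit j

structure Face where
  i : Fin 4
  j : Fin 4
  b : Fin 16
  s : Bool

/-- the 24 two-dimensional faces with the sign pattern -/
def faces : List Face :=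
  [⟨0,1,0,true⟩, ⟨0,1,4,false⟩, ⟨0,1,8,false⟩, ⟨0,1,12,false⟩,
   ⟨0,2,0,true⟩, ⟨0,2,2,false⟩, ⟨0,2,8,false⟩, ⟨0,2,10,false⟩,
   ⟨0,3,0,true⟩, ⟨0,3,2,true⟩, ⟨0,3,4,true⟩, ⟨0,3,6,false⟩,
   ⟨1,2,0,true⟩, ⟨1,2,1,true⟩, ⟨1,2,8,true⟩, ⟨1,2,9,false⟩,
   ⟨1,3,0,true⟩, ⟨1,3,1,false⟩, ⟨1,3,4,false⟩, ⟨1,3,5,false⟩,
   ⟨2,3,0,true⟩, ⟨2,3,1,false⟩, ⟨2,3,2,false⟩, ⟨2,3,3,false⟩]

def sgnOK (s : Cube) (f : Face) : Bool := (s f.i == s f.j) == f.s

def minc (s : Cube) (f : Face) : Cube := corner (V f.b) f.i f.j (s f.i) (s f.j)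
def maxc (s : Cube) (f : Face) : Cube := corner (V f.b) f.i f.j (!s f.i) (!s f.j)

/-- `a ≤ b` in the orientation where the coordinates in `s` are flipped -/
def leS (s a b : Cube) : Bool :=
  (!(xor (a 0) (s 0)) || xor (b 0) (s 0)) && (!(xor (a 1) (s 1)) || xor (b 1) (s 1)) &&
  (!(xor (a 2) (s 2)) || xor (b 2) (s 2)) && (!(xor (a 3) (s 3)) || xor (b 3) (s 3))

def only (s t r : Cube) (f : Face) : Bool := sgnOK s f && !(sgnOK t f) && !(sgnOK r f)

def conf (s t r : Cube) : Bool :=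
  faces.any fun f1 => only s t r f1 && faces.any fun f2 => only s t r f2 && leS s (maxc s f2) (minc s f1)

def check (s0 s1 s2 : Cube) : Bool :=
  (faces.any fun f => !(sgnOK s0 f) && !(sgnOK s1 f) && !(sgnOK s2 f)) ||
    conf s0 s1 s2 || conf s1 s0 s2 || conf s2 s0 s1

set_option maxRecDepth 100000 in
theorem check_all : ∀ a b c : Fin 16, check (V a) (V b) (V c) = true := by
  decide +kernel

theorem V_surj : ∀ s : Cube, ∃ a : Fin 16, V a = s := by decide +kernel

theorem check_true (s0 s1 s2 : Cube) : check s0 s1 s2 = true := by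
  obtain ⟨a, rfl⟩ := V_surj s0
  obtain ⟨b, rfl⟩ := V_surj s1
  obtain ⟨c, rfl⟩ := V_surj s2
  exact check_all a b c

theorem faces_ne : ∀ f ∈ faces, f.i ≠ f.j := by decide

/-- the log (base 5) of the target weights -/
def g (v : Cube) : ℕ :=
  [0,0,0,1,0,1,3,3,0,3,1,3,1,3,3,0].getD
    ((if v 0 then 1 else 0) + (if v 1 then 2 else 0) + (if v 2 then 4 else 0) + (if v 3 then 8 else 0)) 0

theorem g_sum : ∑ v : Cube, 5 ^ g v = 776 := by decide +kernel

def altOK (f : Face) : Bool :=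
  let x := g (corner (V f.b) f.i f.j false false) + g (corner (V f.b) f.i f.j true true)
  let y := g (corner (V f.b) f.i f.j false true) + g (corner (V f.b) f.i f.j true false)
  if f.s then decide (y + 1 ≤ x) else decide (x + 1 ≤ y)

theorem alt_all : ∀ f ∈ faces, altOK f = true := by decide

end Pool.Agent.H0.Rbm
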