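import Pool.Agent.H0.Rbm.Main

set_option autoImplicit false

namespace Pool.Agent.H0.Rbm

/-- the target distribution -/
noncomputable def q (v : Fin 4 → Bool) : ℝ := (5:ℝ) ^ (g v) / 776

lemma q_sum : ∑ v, q v = 1 := by
  unfold q
  rw [← Finset.sum_div]
  have h := g_sum
  have h2 : (∑ v : Cube, (5:ℝ) ^ g v) = 776 := by exact_mod_cast h
  rw [h2]; norm_num

lemma q_ge (v : Fin 4 → Bool) : 1 / 776 ≤ q v := by
  unfold q
  have : (1:ℝ) ≤ 5 ^ g v := one_le_pow₀ (by norm_num)
  gcongr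

lemma q_ratio (f : Face) (hf : f ∈ faces) :
    (f.s = true → 5 * pO q f ≤ pE q f) ∧ (f.s = false → 5 * pE q f ≤ pO q f) := by
  have h := alt_all f hf
  unfold altOK at h
  unfold pE pO q
  constructor
  · intro hs
    rw [hs] at h
    simp only [if_true, decide_eq_true_eq] at h
    have h2 : (5:ℝ) ^ (g (corner (V f.b) f.i f.j false true) + g (corner (V f.b) f.i f.j true false) + 1) ≤
        (5:ℝ) ^ (g (corner (V f.b) f.i f.j false false) + g (corner (V f.b) f.i f.j true true)) :=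
      pow_le_pow_right₀ (by norm_num) h
    rw [pow_succ, pow_add, pow_add] at h2
    have : (0:ℝ) < 1 / 776 ^ 2 := by positivity
    nlinarith
  · intro hs
    rw [hs] at h
    simp only [Bool.false_eq_true, if_false, decide_eq_true_eq] at h
    have h2 : (5:ℝ) ^ (g (corner (V f.b) f.i f.j false false) + g (corner (V f.b) f.i f.j true true) + 1) ≤
        (5:ℝ) ^ (g (corner (V f.b) f.i f.j false true) + g (corner (V f.b) f.i f.j true false)) :=
      pow_le_pow_right₀ (by norm_num) h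
    rw [pow_succ, pow_add, pow_add] at h2
    have : (0:ℝ) < 1 / 776 ^ 2 := by positivity
    nlinarith

lemma approx (x y x' y' a b a' b' : ℝ) (hx : 1 / 776 ≤ x) (hy : 1 / 776 ≤ y) (hx' : 1 / 776 ≤ x')
    (hy' : 1 / 776 ≤ y') (ha : |a - x| < 1 / 77600) (hb : |b - y| < 1 / 77600)
    (ha' : |a' - x'| < 1 / 77600) (hb' : |b' - y'| < 1 / 77600) (h : 5 * (x * y) ≤ x' * y') :
    4 * (a * b) < a' * b' := by
  have a1 := (abs_lt.1 ha)
  have b1 := (abs_lt.1 hb)
  have a2 := (abs_lt.1 ha')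
  have b2 := (abs_lt.1 hb')
  have e1 : a ≤ 101 / 100 * x := by linarith [a1.2]
  have e2 : b ≤ 101 / 100 * y := by linarith [b1.2]
  have e3 : 99 / 100 * x' ≤ a' := by linarith [a2.1]
  have e4 : 99 / 100 * y' ≤ b' := by linarith [b2.1]
  have hb0 : 0 ≤ b := by linarith [b1.1]
  have f1 : a * b ≤ (101 / 100 * x) * (101 / 100 * y) := mul_le_mul e1 e2 hb0 (by linarith)
  have f2 : (99 / 100 * x') * (99 / 100 * y') ≤ a' * b' := mul_le_mul e3 e4 (by linarith) (by linarith)
  have f3 : 0 < x * y := mul_pos (by linarith) (by linarith)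
  nlinarith

theorem final (W : Fin 3 → Fin 4 → ℝ) (b : Fin 4 → ℝ) (c : Fin 3 → ℝ)
    (h : ∀ v : Fin 4 → Bool, |Num W b c v / (∑ v' : Fin 4 → Bool, Num W b c v') - q v| < 1 / 77600) : False := by
  set Z := ∑ v' : Fin 4 → Bool, Num W b c v' with hZ
  have hZ0 : 0 < Z := Finset.sum_pos (fun v _ => Num_pos W b c v) Finset.univ_nonempty
  refine no_rep W b c (fun f hf => ?_)
  have hr := q_ratio f hf
  have hZ2 : 0 < Z * Z := by positivity
  constructor
  · intro hs
    have := approx _ _ _ _ _ _ _ _ (q_ge _) (q_ge _) (q_ge _) (q_ge _) (h _) (h _) (h _) (h _) (hr.1 hs)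
    unfold pE pO
    rw [div_mul_div_comm, div_mul_div_comm, ← mul_div_assoc, div_lt_div_iff_of_pos_right hZ2] at this
    exact this
  · intro hs
    have := approx _ _ _ _ _ _ _ _ (q_ge _) (q_ge _) (q_ge _) (q_ge _) (h _) (h _) (h _) (h _) (hr.2 hs)
    unfold pE pO
    rw [div_mul_div_comm, div_mul_div_comm, ← mul_div_assoc, div_lt_div_iff_of_pos_right hZ2] at this
    exact this

end Pool.Agent.H0.Rbm
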