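import Pool.Agent.H0.Rbm.Unit

set_option autoImplicit false

namespace Pool.Agent.H0.Rbm

noncomputable def pE (F : Cube → ℝ) (f : Face) : ℝ :=
  F (corner (V f.b) f.i f.j false false) * F (corner (V f.b) f.i f.j true true)
noncomputable def pO (F : Cube → ℝ) (f : Face) : ℝ :=
  F (corner (V f.b) f.i f.j false true) * F (corner (V f.b) f.i f.j true false)

lemma pE_pos (c : ℝ) (w : Fin 4 → ℝ) (f : Face) : 0 < pE (T c w) f :=
  mul_pos (T_pos _ _ _) (T_pos _ _ _)
lemma pO_pos (c : ℝ) (w : Fin 4 → ℝ) (f : Face) : 0 < pO (T c w) f :=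
  mul_pos (T_pos _ _ _) (T_pos _ _ _)

lemma unit_bad (c : ℝ) (w : Fin 4 → ℝ) (f : Face) (hf : f ∈ faces) (h : sgnOK (sg w) f = false) :
    (f.s = true → pE (T c w) f ≤ pO (T c w) f) ∧ (f.s = false → pO (T c w) f ≤ pE (T c w) f) := by
  have hu := unit_fact c w (V f.b) f.i f.j (faces_ne f hf)
  unfold sgnOK at h
  constructor
  · intro hs
    rw [hs] at h
    have : sg w f.i ≠ sg w f.j := by
      intro h'; rw [h'] at h; simp at h
    exact (hu.2 this).1
  · intro hs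
    rw [hs] at h
    have : sg w f.i = sg w f.j := by
      by_contra h'
      have h2 : (sg w f.i == sg w f.j) = false := by simpa using h'
      rw [h2] at h; simp at h
    exact (hu.1 this).1

lemma unit_good (c : ℝ) (w : Fin 4 → ℝ) (f : Face) (hf : f ∈ faces) (h : sgnOK (sg w) f = true) :
    (f.s = true → 4 * pO (T c w) f < pE (T c w) f → L c w (minc (sg w) f) < 0 ∧ 0 < L c w (maxc (sg w) f)) ∧
    (f.s = false → 4 * pE (T c w) f < pO (T c w) f → L c w (minc (sg w) f) < 0 ∧ 0 < L c w (maxc (sg w) f)) := by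
  have hu := unit_fact c w (V f.b) f.i f.j (faces_ne f hf)
  unfold sgnOK at h
  constructor
  · intro hs
    rw [hs] at h
    have : sg w f.i = sg w f.j := by simpa using h
    exact (hu.1 this).2
  · intro hs
    rw [hs] at h
    have : sg w f.i ≠ sg w f.j := by
      intro h'; rw [h'] at h; simp at h
    exact (hu.2 this).2

lemma single (x y x1 y1 x2 y2 : ℝ) (hx : 0 < x) (hx1 : 0 < x1) (hy1 : 0 < y1) (hx2 : 0 < x2) (hy2 : 0 < y2)
    (h : 4 * (x * x1 * x2) < y * y1 * y2) (h1 : y1 ≤ x1) (h2 : y2 ≤ x2) : 4 * x < y := by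
  by_contra hc
  push Not at hc
  have a1 : y * y1 * y2 ≤ (4 * x) * x1 * x2 := by
    have : y * y1 ≤ (4 * x) * x1 := mul_le_mul hc h1 hy1.le (by positivity)
    exact mul_le_mul this h2 hy2.le (by positivity)
  linarith

/-- hypothesis: all face ratios are strongly of the required sign -/
def Hyp (c0 c1 c2 : ℝ) (w0 w1 w2 : Fin 4 → ℝ) : Prop :=
  ∀ f ∈ faces,
    (f.s = true → 4 * (pO (T c0 w0) f * pO (T c1 w1) f * pO (T c2 w2) f) <
      pE (T c0 w0) f * pE (T c1 w1) f * pE (T c2 w2) f) ∧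
    (f.s = false → 4 * (pE (T c0 w0) f * pE (T c1 w1) f * pE (T c2 w2) f) <
      pO (T c0 w0) f * pO (T c1 w1) f * pO (T c2 w2) f)

lemma cross (c0 c1 c2 : ℝ) (w0 w1 w2 : Fin 4 → ℝ) (H : Hyp c0 c1 c2 w0 w1 w2) (f : Face) (hf : f ∈ faces)
    (ho : only (sg w0) (sg w1) (sg w2) f = true) :
    L c0 w0 (minc (sg w0) f) < 0 ∧ 0 < L c0 w0 (maxc (sg w0) f) := by
  unfold only at ho
  simp only [Bool.and_eq_true, Bool.not_eq_true'] at ho
  obtain ⟨⟨h0, h1⟩, h2⟩ := ho
  have g0 := unit_good c0 w0 f hf h0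
  have b1 := unit_bad c1 w1 f hf h1
  have b2 := unit_bad c2 w2 f hf h2
  have Hf := H f hf
  cases hs : f.s
  · exact g0.2 hs (single _ _ _ _ _ _ (pE_pos _ _ _) (pE_pos _ _ _) (pO_pos _ _ _) (pE_pos _ _ _) (pO_pos _ _ _)
      (Hf.2 hs) (b1.2 hs) (b2.2 hs))
  · exact g0.1 hs (single _ _ _ _ _ _ (pO_pos _ _ _) (pO_pos _ _ _) (pE_pos _ _ _) (pO_pos _ _ _) (pE_pos _ _ _)
      (Hf.1 hs) (b1.1 hs) (b2.1 hs))

lemma no_conf (c0 c1 c2 : ℝ) (w0 w1 w2 : Fin 4 → ℝ) (H : Hyp c0 c1 c2 w0 w1 w2) :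
    conf (sg w0) (sg w1) (sg w2) = false := by
  by_contra hc
  have hc' : conf (sg w0) (sg w1) (sg w2) = true := by simpa using hc
  unfold conf at hc'
  obtain ⟨f1, hf1, h1⟩ := List.any_eq_true.1 hc'
  rw [Bool.and_eq_true] at h1
  obtain ⟨f2, hf2, h2⟩ := List.any_eq_true.1 h1.2
  rw [Bool.and_eq_true] at h2
  have x1 := cross c0 c1 c2 w0 w1 w2 H f1 hf1 h1.1
  have x2 := cross c0 c1 c2 w0 w1 w2 H f2 hf2 h2.1
  have := L_mono c0 w0 _ _ h2.2
  linarith [x1.1, x2.2]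

lemma Hyp_false (c0 c1 c2 : ℝ) (w0 w1 w2 : Fin 4 → ℝ) (H : Hyp c0 c1 c2 w0 w1 w2) : False := by
  have hc := check_true (sg w0) (sg w1) (sg w2)
  unfold check at hc
  have n0 := no_conf c0 c1 c2 w0 w1 w2 H
  have n1 := no_conf c1 c0 c2 w1 w0 w2 (fun f hf => by
    have := H f hf
    constructor
    · intro hs; have := this.1 hs; linarith
    · intro hs; have := this.2 hs; linarith)
  have n2 := no_conf c2 c0 c1 w2 w0 w1 (fun f hf => by
    have := H f hf
    constructor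
    · intro hs; have := this.1 hs; linarith
    · intro hs; have := this.2 hs; linarith)
  rw [n0, n1, n2] at hc
  simp only [Bool.or_false] at hc
  obtain ⟨f, hf, h⟩ := List.any_eq_true.1 hc
  simp only [Bool.and_eq_true, Bool.not_eq_true'] at h
  obtain ⟨⟨h0, h1⟩, h2⟩ := h
  have b0 := unit_bad c0 w0 f hf h0
  have b1 := unit_bad c1 w1 f hf h1
  have b2 := unit_bad c2 w2 f hf h2
  have Hf := H f hf
  have e0 := pE_pos c0 w0 f
  have e1 := pE_pos c1 w1 f
  have e2 := pE_pos c2 w2 f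
  have o0 := pO_pos c0 w0 f
  have o1 := pO_pos c1 w1 f
  have o2 := pO_pos c2 w2 f
  cases hs : f.s
  · have h3 := Hf.2 hs
    have h4 : pO (T c0 w0) f * pO (T c1 w1) f * pO (T c2 w2) f ≤ pE (T c0 w0) f * pE (T c1 w1) f * pE (T c2 w2) f :=
      mul_le_mul (mul_le_mul (b0.2 hs) (b1.2 hs) o1.le e0.le) (b2.2 hs) o2.le (by positivity)
    have h5 : 0 < pE (T c0 w0) f * pE (T c1 w1) f * pE (T c2 w2) f := by positivity
    linarith
  · have h3 := Hf.1 hs
    have h4 : pE (T c0 w0) f * pE (T c1 w1) f * pE (T c2 w2) f ≤ pO (T c0 w0) f * pO (T c1 w1) f * pO (T c2 w2) f :=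
      mul_le_mul (mul_le_mul (b0.1 hs) (b1.1 hs) e1.le o0.le) (b2.1 hs) e2.le (by positivity)
    have h5 : 0 < pO (T c0 w0) f * pO (T c1 w1) f * pO (T c2 w2) f := by positivity
    linarith

/-- unnormalised marginal -/
noncomputable def Num (W : Fin 3 → Fin 4 → ℝ) (b : Fin 4 → ℝ) (c : Fin 3 → ℝ) (v : Cube) : ℝ :=
  Real.exp (L 0 b v) * (T (c 0) (W 0) v * T (c 1) (W 1) v * T (c 2) (W 2) v)

lemma Num_pos (W : Fin 3 → Fin 4 → ℝ) (b : Fin 4 → ℝ) (c : Fin 3 → ℝ) (v : Cube) : 0 < Num W b c v := by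
  unfold Num
  have := T_pos (c 0) (W 0) v
  have := T_pos (c 1) (W 1) v
  have := T_pos (c 2) (W 2) v
  positivity

lemma Num_ratio (W : Fin 3 → Fin 4 → ℝ) (b : Fin 4 → ℝ) (c : Fin 3 → ℝ) (f : Face) (hf : f ∈ faces) :
    ∃ K : ℝ, 0 < K ∧
      pE (Num W b c) f = K * (pE (T (c 0) (W 0)) f * pE (T (c 1) (W 1)) f * pE (T (c 2) (W 2)) f) ∧
      pO (Num W b c) f = K * (pO (T (c 0) (W 0)) f * pO (T (c 1) (W 1)) f * pO (T (c 2) (W 2)) f) := by
  obtain ⟨R, hR⟩ := L_corner 0 b (V f.b) f.i f.j (faces_ne f hf)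
  refine ⟨Real.exp (R + R + b f.i + b f.j), Real.exp_pos _, ?_, ?_⟩
  · unfold pE Num
    rw [hR, hR]
    have : Real.exp (R + R + b f.i + b f.j) = Real.exp (R + 0 + 0) * Real.exp (R + b f.i + b f.j) := by
      rw [← Real.exp_add]; congr 1; ring
    rw [this]
    simp
    ring
  · unfold pO Num
    rw [hR, hR]
    have : Real.exp (R + R + b f.i + b f.j) = Real.exp (R + 0 + b f.j) * Real.exp (R + b f.i + 0) := by
      rw [← Real.exp_add]; congr 1; ring
    rw [this]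
    simp
    ring

theorem no_rep (W : Fin 3 → Fin 4 → ℝ) (b : Fin 4 → ℝ) (c : Fin 3 → ℝ)
    (H : ∀ f ∈ faces, (f.s = true → 4 * pO (Num W b c) f < pE (Num W b c) f) ∧
      (f.s = false → 4 * pE (Num W b c) f < pO (Num W b c) f)) : False := by
  refine Hyp_false (c 0) (c 1) (c 2) (W 0) (W 1) (W 2) (fun f hf => ?_)
  obtain ⟨K, hK, h1, h2⟩ := Num_ratio W b c f hf
  have Hf := H f hf
  rw [h1, h2] at Hf
  constructor
  · intro hs
    have := Hf.1 hs
    refine lt_of_mul_lt_mul_left ?_ hK.le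
    linarith
  · intro hs
    have := Hf.2 hs
    refine lt_of_mul_lt_mul_left ?_ hK.le
    linarith

/-- the sum over hidden states factorizes -/
lemma Num_eq (W : Fin 3 → Fin 4 → ℝ) (b : Fin 4 → ℝ) (c : Fin 3 → ℝ) (v : Fin 4 → Bool) :
    (∑ h : Fin 3 → Bool, Real.exp (∑ i : Fin 3, ∑ j : Fin 4,
              W i j * (if h i then (1:ℝ) else 0) * (if v j then (1:ℝ) else 0)
              + ∑ j : Fin 4, b j * (if v j then (1:ℝ) else 0)
              + ∑ i : Fin 3, c i * (if h i then (1:ℝ) else 0))) = Num W b c v := by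
  have h1 : ∀ h : Fin 3 → Bool, Real.exp (∑ i : Fin 3, ∑ j : Fin 4,
              W i j * (if h i then (1:ℝ) else 0) * (if v j then (1:ℝ) else 0)
              + ∑ j : Fin 4, b j * (if v j then (1:ℝ) else 0)
              + ∑ i : Fin 3, c i * (if h i then (1:ℝ) else 0)) =
      Real.exp (L 0 b v) * ∏ i : Fin 3, (if h i then Real.exp (L (c i) (W i) v) else 1) := by
    intro h
    have e1 : ∀ i : Fin 3, (if h i then Real.exp (L (c i) (W i) v) else 1) =
        Real.exp (∑ j : Fin 4, W i j * (if h i then (1:ℝ) else 0) * (if v j then (1:ℝ) else 0)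
          + c i * (if h i then (1:ℝ) else 0)) := by
      intro i
      cases h i
      · simp
      · simp [L, add_comm]
    rw [Finset.prod_congr rfl (fun i _ => e1 i), ← Real.exp_sum, ← Real.exp_add]
    congr 1
    rw [Finset.sum_add_distrib]
    have e2 : L 0 b v = ∑ j : Fin 4, b j * (if v j then (1:ℝ) else 0) := by
      simp [L]
    rw [e2]
    ring
  rw [Finset.sum_congr rfl (fun h _ => h1 h), ← Finset.mul_sum]
  unfold Num
  congr 1
  have h2 := (Finset.prod_univ_sum (fun _ : Fin 3 => (Finset.univ : Finset Bool))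
    (fun i (x : Bool) => if x then Real.exp (L (c i) (W i) v) else 1)).symm
  rw [Fintype.piFinset_univ] at h2
  rw [h2]
  simp [Fin.prod_univ_three, T, add_comm]

end Pool.Agent.H0.Rbm
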