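import Pool.Agent.H0.Rbm.Comb

set_option autoImplicit false

namespace Pool.Agent.H0.Rbm

noncomputable def L (c : ℝ) (w : Fin 4 → ℝ) (v : Cube) : ℝ := c + ∑ j, if v j then w j else 0

noncomputable def T (c : ℝ) (w : Fin 4 → ℝ) (v : Cube) : ℝ := 1 + Real.exp (L c w v)

lemma T_pos (c : ℝ) (w : Fin 4 → ℝ) (v : Cube) : 0 < T c w v := by
  unfold T; positivity

lemma L_corner (c : ℝ) (w : Fin 4 → ℝ) (v : Cube) (i j : Fin 4) (hij : i ≠ j) :
    ∃ R : ℝ, ∀ a b : Bool, L c w (corner v i j a b) = R + (if a then w i else 0) + (if b then w j else 0) := by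
  refine ⟨c + ∑ k ∈ (Finset.univ.erase i).erase j, if v k then w k else 0, fun a b => ?_⟩
  unfold L
  rw [← Finset.add_sum_erase Finset.univ _ (Finset.mem_univ i),
    ← Finset.add_sum_erase (Finset.univ.erase i) _ (Finset.mem_erase.2 ⟨hij.symm, Finset.mem_univ j⟩)]
  have h1 : corner v i j a b i = a := by simp [corner]
  have h2 : corner v i j a b j = b := by simp [corner, hij.symm]
  have h3 : ∑ k ∈ (Finset.univ.erase i).erase j, (if corner v i j a b k then w k else 0) =
      ∑ k ∈ (Finset.univ.erase i).erase j, (if v k then w k else 0) := by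
    refine Finset.sum_congr rfl fun k hk => ?_
    have hk1 := Finset.mem_erase.1 hk
    have hk2 := Finset.mem_erase.1 hk1.2
    have : corner v i j a b k = v k := by simp [corner, hk1.1, hk2.1]
    rw [this]
  rw [h1, h2, h3]
  ring

/-- the core inequality, all increments nonnegative -/
lemma core (m a b : ℝ) (ha : 0 ≤ a) (hb : 0 ≤ b) :
    (1 + Real.exp (m + a)) * (1 + Real.exp (m + b)) ≤ (1 + Real.exp m) * (1 + Real.exp (m + a + b)) ∧
    (4 * ((1 + Real.exp (m + a)) * (1 + Real.exp (m + b))) < (1 + Real.exp m) * (1 + Real.exp (m + a + b)) →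
      m < 0 ∧ 0 < m + a + b) := by
  have hA : 1 ≤ Real.exp a := Real.one_le_exp ha
  have hB : 1 ≤ Real.exp b := Real.one_le_exp hb
  have hy : 0 < Real.exp m := Real.exp_pos m
  rw [Real.exp_add, Real.exp_add, Real.exp_add (m + a) b, Real.exp_add m a]
  set A := Real.exp a
  set B := Real.exp b
  set y := Real.exp m with hydef
  constructor
  · nlinarith [mul_nonneg hy.le (mul_nonneg (sub_nonneg.2 hA) (sub_nonneg.2 hB))]
  · intro h
    have hyA : 0 < y * A := by positivity
    have hyB : 0 < y * B := by positivity
    have hAB : 1 ≤ A * B := by nlinarith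
    constructor
    · by_contra hm
      push Not at hm
      have hy1 : 1 ≤ y := Real.one_le_exp hm
      have h1 : 1 ≤ y * A * B := by nlinarith
      have h2 : (1 + y) * (1 + y * A * B) ≤ (2 * y) * (2 * (y * A * B)) :=
        mul_le_mul (by linarith) (by linarith) (by positivity) (by positivity)
      nlinarith
    · by_contra hm
      push Not at hm
      have h1 : y * A * B ≤ 1 := by
        rw [hydef, ← Real.exp_add, ← Real.exp_add]
        exact Real.exp_le_one_iff.2 hm
      have h2 : y ≤ 1 := by nlinarith
      have h3 : (1 + y) * (1 + y * A * B) ≤ 2 * 2 :=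
        mul_le_mul (by linarith) (by linarith) (by positivity) (by norm_num)
      nlinarith

/-- sign vector of a unit -/
noncomputable def sg (w : Fin 4 → ℝ) : Cube := fun k => decide (w k < 0)

/-- facts about one unit on one face -/
lemma unit_fact (c : ℝ) (w : Fin 4 → ℝ) (v : Cube) (i j : Fin 4) (hij : i ≠ j) :
    (sg w i = sg w j →
      T c w (corner v i j false true) * T c w (corner v i j true false) ≤
        T c w (corner v i j false false) * T c w (corner v i j true true) ∧
      (4 * (T c w (corner v i j false true) * T c w (corner v i j true false)) <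
        T c w (corner v i j false false) * T c w (corner v i j true true) →
        L c w (corner v i j (sg w i) (sg w j)) < 0 ∧ 0 < L c w (corner v i j (!sg w i) (!sg w j)))) ∧
    (sg w i ≠ sg w j →
      T c w (corner v i j false false) * T c w (corner v i j true true) ≤
        T c w (corner v i j false true) * T c w (corner v i j true false) ∧
      (4 * (T c w (corner v i j false false) * T c w (corner v i j true true)) <
        T c w (corner v i j false true) * T c w (corner v i j true false) →
        L c w (corner v i j (sg w i) (sg w j)) < 0 ∧ 0 < L c w (corner v i j (!sg w i) (!sg w j)))) := by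
  obtain ⟨R, hR⟩ := L_corner c w v i j hij
  unfold T
  simp only [hR]
  by_cases hi : w i < 0 <;> by_cases hj : w j < 0
  · have h := core (R + w i + w j) (-w i) (-w j) (by linarith) (by linarith)
    have e1 : R + w i + w j + -w i = R + w j := by ring
    have e2 : R + w i + w j + -w j = R + w i := by ring
    have e3 : R + w j + -w j = R := by ring
    rw [e1, e2, e3] at h
    simp only [sg, hi, hj]
    refine ⟨fun _ => ?_, fun h => absurd rfl h⟩
    simp
    constructor
    · linarith [h.1]
    · intro h2
      exact h.2 (by linarith)
  · have h := core (R + w i) (-w i) (w j) (by linarith) (by linarith)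
    have e1 : R + w i + -w i = R := by ring
    rw [e1] at h
    simp only [sg, hi, hj]
    refine ⟨fun h => absurd h (by simp), fun _ => ?_⟩
    simp
    constructor
    · linarith [h.1]
    · intro h2
      exact h.2 (by linarith)
  · have h := core (R + w j) (w i) (-w j) (by linarith) (by linarith)
    have e1 : R + w j + -w j = R := by ring
    have e2 : R + w j + w i = R + w i + w j := by ring
    have e3 : R + w i + w j + -w j = R + w i := by ring
    rw [e2, e1, e3] at h
    simp only [sg, hi, hj]
    refine ⟨fun h => absurd h (by simp), fun _ => ?_⟩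
    simp
    constructor
    · linarith [h.1]
    · intro h2
      exact h.2 (by linarith)
  · have h := core R (w i) (w j) (by linarith) (by linarith)
    simp only [sg, hi, hj]
    refine ⟨fun _ => ?_, fun h => absurd rfl h⟩
    simp
    constructor
    · linarith [h.1]
    · intro h2
      exact h.2 (by linarith)

/-- monotonicity -/
lemma L_mono (c : ℝ) (w : Fin 4 → ℝ) (a b : Cube) (h : leS (sg w) a b = true) : L c w a ≤ L c w b := by
  unfold L
  have key : ∀ k, (!(xor (a k) (sg w k)) || xor (b k) (sg w k)) = true →
      (if a k then w k else 0) ≤ (if b k then w k else 0) := by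
    intro k hk
    unfold sg at hk
    by_cases hw : w k < 0
    · cases ha : a k <;> cases hb : b k <;> simp_all
      exact hw.le
    · cases ha : a k <;> cases hb : b k <;> simp_all
  unfold leS at h
  simp only [Bool.and_eq_true] at h
  have hk : ∀ k, (!(xor (a k) (sg w k)) || xor (b k) (sg w k)) = true := by
    intro k
    fin_cases k
    · exact h.1.1.1
    · exact h.1.1.2
    · exact h.1.2
    · exact h.2
  have := Finset.sum_le_sum (s := Finset.univ) fun k _ => key k (hk k)
  linarith

end Pool.Agent.H0.Rbm
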